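import Mathlib

/-!
# The distance spectrum does not determine bipartiteness (MP_69260a_co, Q1)
-/

set_option autoImplicit false

open Matrix Polynomial

namespace Pool.Agent.Results.MP_69260a_co.BipartiteNotDetermined

/-- The distance matrix of a graph on a finite vertex set, as a real matrix. -/
noncomputable def distMatrix {V : Type} (G : SimpleGraph V) : Matrix V V ℝ :=
  Matrix.of fun i j => (G.dist i j : ℝ)

/-! ### A certificate for distances -/

/-- A function which vanishes exactly on the diagonal, changes by at most one along edges, and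
for which every vertex different from the start has a neighbour that is nearer to the start, is
the distance function. -/
theorem dist_eq_of_cert {V : Type} (G : SimpleGraph V) (d : V → V → ℕ)
    (h0 : ∀ i, d i i = 0)
    (h1 : ∀ i j k, G.Adj j k → d i k ≤ d i j + 1)
    (h2 : ∀ i j, i ≠ j → ∃ k, G.Adj k j ∧ d i j = d i k + 1) :
    (∀ i j, G.Reachable i j) ∧ ∀ i j, G.dist i j = d i j := by
  have up : ∀ (n : ℕ) (i j : V), d i j = n → ∃ p : G.Walk i j, p.length = n := by
    intro n
    induction n with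
    | zero =>
      intro i j h
      by_cases hij : i = j
      · subst hij
        exact ⟨SimpleGraph.Walk.nil, rfl⟩
      · obtain ⟨k, _, hk⟩ := h2 i j hij
        omega
    | succ n ih =>
      intro i j h
      have hij : i ≠ j := by
        rintro rfl
        rw [h0] at h
        omega
      obtain ⟨k, hk1, hk2⟩ := h2 i j hij
      obtain ⟨p, hp⟩ := ih i k (by omega)
      exact ⟨p.concat hk1, by rw [SimpleGraph.Walk.length_concat, hp]⟩
  have low : ∀ (i j k : V) (p : G.Walk j k), d i k ≤ d i j + p.length := by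
    intro i j k p
    induction p with
    | nil => simp
    | cons h p ih =>
      have := h1 i _ _ h
      rw [SimpleGraph.Walk.length_cons]
      omega
  have hr : ∀ i j, G.Reachable i j := fun i j => by
    obtain ⟨p, _⟩ := up _ i j rfl
    exact ⟨p⟩
  refine ⟨hr, fun i j => ?_⟩
  apply le_antisymm
  · obtain ⟨p, hp⟩ := up _ i j rfl
    rw [← hp]
    exact SimpleGraph.dist_le p
  · obtain ⟨p, hp⟩ := (hr i j).exists_walk_length_eq_dist
    have := low i i j p
    rw [h0, zero_add, hp] at this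
    exact this

/-! ### The bipartite graph: a blow-up of the path on four vertices -/

/-- cells of sizes 3, 2, 14, 1 -/
def cellB (i : Fin 20) : Fin 4 :=
  if i.val < 3 then 0 else if i.val < 5 then 1 else if i.val < 19 then 2 else 3

/-- distances between cells, 2 on the diagonal -/
def QB : Matrix (Fin 4) (Fin 4) ℤ := !![2, 1, 2, 3; 1, 2, 1, 2; 2, 1, 2, 1; 3, 2, 1, 2]

def natB (a b : Fin 4) : ℕ := (QB a b).toNat

/-- the bipartite graph -/
def GB : SimpleGraph (Fin 20) where
  Adj i j := natB (cellB i) (cellB j) = 1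
  symm := ⟨by unfold natB cellB QB; decide +kernel⟩
  loopless := ⟨by unfold natB cellB QB; decide +kernel⟩

def dB (i j : Fin 20) : ℕ := if i = j then 0 else natB (cellB i) (cellB j)

/-! ### The non-bipartite graph: a blow-up of the house -/

/-- cells of sizes 8, 2, 8, 1, 1 -/
def cellH (i : Fin 20) : Fin 5 :=
  if i.val < 8 then 0 else if i.val < 10 then 1 else if i.val < 18 then 2 else
    if i.val < 19 then 3 else 4

/-- distances between cells, 2 on the diagonal -/
def QH : Matrix (Fin 5) (Fin 5) ℤ :=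
  !![2, 2, 2, 1, 1; 2, 2, 1, 2, 1; 2, 1, 2, 1, 2; 1, 2, 1, 2, 1; 1, 1, 2, 1, 2]

def natH (a b : Fin 5) : ℕ := (QH a b).toNat

/-- the non-bipartite graph -/
def GH : SimpleGraph (Fin 20) where
  Adj i j := natH (cellH i) (cellH j) = 1
  symm := ⟨by unfold natH cellH QH; decide +kernel⟩
  loopless := ⟨by unfold natH cellH QH; decide +kernel⟩

def dH (i j : Fin 20) : ℕ := if i = j then 0 else natH (cellH i) (cellH j)

theorem distB : (∀ i j, GB.Reachable i j) ∧ ∀ i j, GB.dist i j = dB i j := by
  apply dist_eq_of_cert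
  · intro i; simp [dB]
  · show ∀ i j k : Fin 20, natB (cellB j) (cellB k) = 1 → dB i k ≤ dB i j + 1
    unfold dB natB cellB QB
    decide +kernel
  · show ∀ i j : Fin 20, i ≠ j → ∃ k : Fin 20, natB (cellB k) (cellB j) = 1 ∧ dB i j = dB i k + 1
    unfold dB natB cellB QB
    decide +kernel

theorem distH : (∀ i j, GH.Reachable i j) ∧ ∀ i j, GH.dist i j = dH i j := by
  apply dist_eq_of_cert
  · intro i; simp [dH]
  · show ∀ i j k : Fin 20, natH (cellH j) (cellH k) = 1 → dH i k ≤ dH i j + 1
    unfold dH natH cellH QH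
    decide +kernel
  · show ∀ i j : Fin 20, i ≠ j → ∃ k : Fin 20, natH (cellH k) (cellH j) = 1 ∧ dH i j = dH i k + 1
    unfold dH natH cellH QH
    decide +kernel

/-! ### Characteristic polynomials -/

def PB : Matrix (Fin 20) (Fin 4) ℤ := Matrix.of fun i a => if cellB i = a then 1 else 0
def PH : Matrix (Fin 20) (Fin 5) ℤ := Matrix.of fun i a => if cellH i = a then 1 else 0

def DB : Matrix (Fin 20) (Fin 20) ℤ := Matrix.of fun i j => (dB i j : ℤ)
def DH : Matrix (Fin 20) (Fin 20) ℤ := Matrix.of fun i j => (dH i j : ℤ)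

theorem DB_eq : DB = PB * (QB * PBᵀ) - Matrix.scalar (Fin 20) 2 := by
  unfold DB PB dB natB cellB QB
  decide +kernel

theorem DH_eq : DH = PH * (QH * PHᵀ) - Matrix.scalar (Fin 20) 2 := by
  unfold DH PH dH natH cellH QH
  decide +kernel

theorem small_B : QB * PBᵀ * PB = !![6, 2, 28, 3; 3, 4, 14, 2; 6, 2, 28, 1; 9, 4, 14, 2] := by
  unfold PB QB cellB
  decide +kernel

theorem small_H : QH * PHᵀ * PH =
    !![16, 4, 16, 1, 1; 16, 4, 8, 2, 1; 16, 2, 16, 1, 2; 8, 4, 8, 2, 1; 8, 2, 16, 1, 2] := by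
  unfold PH QH cellH
  decide +kernel

theorem det_H (t : ℤ) :
    (Matrix.scalar (Fin 5) t -
      (!![16, 4, 16, 1, 1; 16, 4, 8, 2, 1; 16, 2, 16, 1, 2; 8, 4, 8, 2, 1; 8, 2, 16, 1, 2] :
      Matrix (Fin 5) (Fin 5) ℤ)).det = t * (t ^ 4 - 40 * t ^ 3 + 129 * t ^ 2 + 384 * t - 1008) := by
  have e : Matrix.scalar (Fin 5) t -
      (!![16, 4, 16, 1, 1; 16, 4, 8, 2, 1; 16, 2, 16, 1, 2; 8, 4, 8, 2, 1; 8, 2, 16, 1, 2] :
      Matrix (Fin 5) (Fin 5) ℤ) = !![t - 16, -4, -16, -1, -1; -16, t - 4, -8, -2, -1;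
        -16, -2, t - 16, -1, -2; -8, -4, -8, t - 2, -1; -8, -2, -16, -1, t - 2] := by
    rw [Matrix.scalar_apply]
    ext i j
    fin_cases i <;> fin_cases j <;> simp [Matrix.diagonal]
  rw [e]
  simp only [Matrix.det_succ_row_zero, Fin.sum_univ_succ]
  simp [Fin.succAbove]
  ring

theorem det_B (t : ℤ) :
    (Matrix.scalar (Fin 4) t -
      (!![6, 2, 28, 3; 3, 4, 14, 2; 6, 2, 28, 1; 9, 4, 14, 2] : Matrix (Fin 4) (Fin 4) ℤ)).det
      = t ^ 4 - 40 * t ^ 3 + 129 * t ^ 2 + 384 * t - 1008 := by
  have e : Matrix.scalar (Fin 4) t -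
      (!![6, 2, 28, 3; 3, 4, 14, 2; 6, 2, 28, 1; 9, 4, 14, 2] : Matrix (Fin 4) (Fin 4) ℤ)
      = !![t - 6, -2, -28, -3; -3, t - 4, -14, -2; -6, -2, t - 28, -1; -9, -4, -14, t - 2] := by
    rw [Matrix.scalar_apply]
    ext i j
    fin_cases i <;> fin_cases j <;> simp [Matrix.diagonal]
  rw [e]
  simp only [Matrix.det_succ_row_zero, Fin.sum_univ_succ]
  simp [Fin.succAbove]
  ring

theorem small_charpoly :
    (!![16, 4, 16, 1, 1; 16, 4, 8, 2, 1; 16, 2, 16, 1, 2; 8, 4, 8, 2, 1; 8, 2, 16, 1, 2] :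
      Matrix (Fin 5) (Fin 5) ℤ).charpoly
    = X * (!![6, 2, 28, 3; 3, 4, 14, 2; 6, 2, 28, 1; 9, 4, 14, 2] :
      Matrix (Fin 4) (Fin 4) ℤ).charpoly := by
  apply Polynomial.funext
  intro t
  rw [eval_mul, eval_X, Matrix.eval_charpoly, Matrix.eval_charpoly, det_H, det_B]

theorem charpoly_eq : DB.charpoly = DH.charpoly := by
  rw [DB_eq, DH_eq, Matrix.charpoly_sub_scalar, Matrix.charpoly_sub_scalar,
    Matrix.charpoly_mul_comm_of_le PB (QB * PBᵀ) (by simp),
    Matrix.charpoly_mul_comm_of_le PH (QH * PHᵀ) (by simp),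
    small_B, small_H, small_charpoly, ← mul_assoc, ← pow_succ]
  rfl

/-- **The distance spectrum does not determine bipartiteness.**  There are two connected graphs
on 20 vertices whose distance matrices have the same characteristic polynomial, one of which is
bipartite and the other is not. -/
theorem result : ∃ G H : SimpleGraph (Fin 20), G.Connected ∧ H.Connected ∧
    (distMatrix G).charpoly = (distMatrix H).charpoly ∧ G.Colorable 2 ∧ ¬ H.Colorable 2 := by
  refine ⟨GB, GH, ?_, ?_, ?_, ?_, ?_⟩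
  · have : Nonempty (Fin 20) := ⟨0⟩
    exact ⟨distB.1⟩
  · have : Nonempty (Fin 20) := ⟨0⟩
    exact ⟨distH.1⟩
  · have e1 : distMatrix GB = DB.map (Int.castRingHom ℝ) := by
      ext i j
      simp [distMatrix, DB, distB.2]
    have e2 : distMatrix GH = DH.map (Int.castRingHom ℝ) := by
      ext i j
      simp [distMatrix, DH, distH.2]
    rw [e1, e2, Matrix.charpoly_map, Matrix.charpoly_map, charpoly_eq]
  · refine ⟨SimpleGraph.Coloring.mk (fun i => if (cellB i).val % 2 = 0 then 0 else 1) ?_⟩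
    show ∀ {i j : Fin 20}, natB (cellB i) (cellB j) = 1 → _
    intro i j
    revert i j
    unfold natB cellB QB
    decide +kernel
  · rintro ⟨c⟩
    have h1 : GH.Adj 0 18 := by show natH (cellH 0) (cellH 18) = 1; decide +kernel
    have h2 : GH.Adj 0 19 := by show natH (cellH 0) (cellH 19) = 1; decide +kernel
    have h3 : GH.Adj 18 19 := by show natH (cellH 18) (cellH 19) = 1; decide +kernel
    have g1 := c.valid h1
    have g2 := c.valid h2
    have g3 := c.valid h3
    revert g1 g2 g3
    generalize c 0 = a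
    generalize c 18 = b
    generalize c 19 = d
    revert a b d
    decide

end Pool.Agent.Results.MP_69260a_co.BipartiteNotDetermined
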